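import Pool.Agent.X261.FI.ThF

/-!
# Thompson's group `F` is not integrable
-/

set_option autoImplicit false

open scoped commutatorElement

universe u

namespace Pool.Agent.Results.MP_57deef_al.NotIntegrable

/-- The relators `[x₀x₁⁻¹, x₀⁻¹x₁x₀]` and `[x₀x₁⁻¹, x₀⁻²x₁x₀²]`, where
`[a, b] = a⁻¹b⁻¹ab`. -/
def rels : Set (FreeGroup (Fin 2)) :=
  let x₀ := FreeGroup.of (0 : Fin 2)
  let x₁ := FreeGroup.of (1 : Fin 2)
  let c := fun a b : FreeGroup (Fin 2) => a⁻¹ * b⁻¹ * a * b
  {c (x₀ * x₁⁻¹) (x₀⁻¹ * x₁ * x₀), c (x₀ * x₁⁻¹) ((x₀ ^ 2)⁻¹ * x₁ * x₀ ^ 2)}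

/-- Thompson's group `F`. -/
abbrev ThompsonF : Type := PresentedGroup rels

open Pool.Agent.H583R3 (F x0 x1 fRel_x fRel_iff)

lemma comm_one {G : Type} [Group G] {a b : G} : a⁻¹ * b⁻¹ * a * b = 1 ↔ Commute a b := by
  constructor
  · intro h
    have h1 : a * b = b * a := by
      have h2 : b * a * (a⁻¹ * b⁻¹ * a * b) = b * a := by rw [h, mul_one]
      calc a * b = b * a * (a⁻¹ * b⁻¹ * a * b) := by group
        _ = b * a := h2
    exact h1
  · intro h
    have h1 : a * b = b * a := h.eq
    calc a⁻¹ * b⁻¹ * a * b = a⁻¹ * b⁻¹ * (a * b) := by group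
      _ = a⁻¹ * b⁻¹ * (b * a) := by rw [h1]
      _ = 1 := by group

/-- The comparison with the presentation with the other convention for commutators. -/
lemma exists_equiv : Nonempty (ThompsonF ≃* F) := by
  have hx := (fRel_iff x0 x1).1 fRel_x
  have h1 : ∀ r ∈ rels, FreeGroup.lift ![x0, x1] r = 1 := by
    intro r hr
    rcases hr with rfl | hr
    · simp only [map_mul, map_inv, FreeGroup.lift_apply_of, Matrix.cons_val_zero,
        Matrix.cons_val_one]
      exact comm_one.2 hx.1
    · rw [Set.mem_singleton_iff] at hr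
      subst hr
      simp only [map_mul, map_inv, map_pow, FreeGroup.lift_apply_of, Matrix.cons_val_zero,
        Matrix.cons_val_one]
      refine comm_one.2 ?_
      have h := hx.2
      have e : (x0 ^ 2)⁻¹ * x1 * x0 ^ 2 = x0⁻¹ * x0⁻¹ * x1 * x0 * x0 := by
        rw [pow_two]
        simp only [mul_inv_rev, mul_assoc]
      rw [e]
      exact h
  let y0 : ThompsonF := PresentedGroup.of 0
  let y1 : ThompsonF := PresentedGroup.of 1
  have r1 : Commute (y0 * y1⁻¹) (y0⁻¹ * y1 * y0) := by
    have : (PresentedGroup.mk rels) _ = 1 := PresentedGroup.one_of_mem (rels := rels) (Or.inl rfl)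
    simp only [map_mul, map_inv] at this
    exact comm_one.1 this
  have r2 : Commute (y0 * y1⁻¹) (y0⁻¹ * y0⁻¹ * y1 * y0 * y0) := by
    have : (PresentedGroup.mk rels) _ = 1 := PresentedGroup.one_of_mem (rels := rels) (Or.inr rfl)
    simp only [map_mul, map_inv, map_pow] at this
    have h := comm_one.1 this
    have e : (y0 ^ 2)⁻¹ * y1 * y0 ^ 2 = y0⁻¹ * y0⁻¹ * y1 * y0 * y0 := by
      rw [pow_two]
      simp only [mul_inv_rev, mul_assoc]
    rw [← e]
    exact h
  have hy := (fRel_iff y0 y1).2 ⟨r1, r2⟩
  have h2 : ∀ r ∈ Pool.Agent.H583R3.rels, FreeGroup.lift ![y0, y1] r = 1 := by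
    intro r hr
    rcases hr with rfl | hr
    · simpa [FreeGroup.lift_apply_of] using hy.1
    · rw [Set.mem_singleton_iff] at hr
      subst hr
      simpa [FreeGroup.lift_apply_of] using hy.2
  let φ : ThompsonF →* F := PresentedGroup.toGroup h1
  let ψ : F →* ThompsonF := PresentedGroup.toGroup h2
  have e1 : ψ.comp φ = MonoidHom.id _ := by
    apply PresentedGroup.ext
    intro i
    show ψ (φ (PresentedGroup.of i)) = _
    rw [show φ (PresentedGroup.of i) = ![x0, x1] i from PresentedGroup.toGroup.of h1]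
    fin_cases i
    · exact PresentedGroup.toGroup.of h2
    · exact PresentedGroup.toGroup.of h2
  have e2 : φ.comp ψ = MonoidHom.id _ := by
    apply PresentedGroup.ext
    intro i
    show φ (ψ (PresentedGroup.of i)) = _
    rw [show ψ (PresentedGroup.of i) = ![y0, y1] i from PresentedGroup.toGroup.of h2]
    fin_cases i
    · exact PresentedGroup.toGroup.of h1
    · exact PresentedGroup.toGroup.of h1
  exact ⟨MonoidHom.toMulEquiv φ ψ e1 e2⟩

/-- **Thompson's group `F` is not integrable**: it is not isomorphic to the derived subgroup of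
any group. -/
theorem result (H : Type u) [Group H] : IsEmpty (commutator H ≃* ThompsonF) := by
  constructor
  intro e₀
  obtain ⟨e₁⟩ := exists_equiv
  let e : commutator H ≃* F := e₀.trans e₁
  let E : Pool.Agent.X261.FI.Ext F H :=
    { α := (MulAut.congr e).toMonoidHom.comp MulAut.conjNormal
      ι := (commutator H).subtype.comp e.symm.toMonoidHom
      inj := by
        intro x y h
        apply e.symm.injective
        exact Subtype.ext h
      conj := by
        intro v f
        show ((e.symm (e (MulAut.conjNormal v (e.symm f))) : commutator H) : H) = _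
        rw [e.symm_apply_apply, MulAut.conjNormal_apply]
        rfl
      comm := by
        intro v w
        have hmem : ⁅v, w⁆ ∈ commutator H :=
          Subgroup.commutator_mem_commutator (Subgroup.mem_top v) (Subgroup.mem_top w)
        refine ⟨e ⟨⁅v, w⁆, hmem⟩, ?_⟩
        show ((e.symm (e ⟨⁅v, w⁆, hmem⟩) : commutator H) : H) = _
        rw [e.symm_apply_apply]
        exact commutatorElement_def v w }
  exact Pool.Agent.X261.FI.Ext.main Pool.Agent.X261.FI.datF E (fun f => (e.symm f).2)

end Pool.Agent.Results.MP_57deef_al.NotIntegrable
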